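import Pool.Agent.H.MP_fb873c_an.D2d

/-! # The diffeomorphisms without fixed points of the `i`-th iterate form an open set -/

namespace FB

open scoped Topology ContDiff Manifold

universe u

section

variable {n : ℕ} {M : Type u} [TopologicalSpace M] [ChartedSpace (Er n) M]
  [IsManifold (𝓡 n) ∞ M] [CompactSpace M] [T2Space M]

theorem isOpen_nofix (r : ℕ∞) (i : ℕ) :
    IsOpen[crTop n M r] {g : Dif n M | ∀ x, (g : M → M)^[i] x ≠ x} := by
  haveI : LocallyCompactSpace M := ChartedSpace.locallyCompactSpace (Er n) M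
  letI T := crTop n M r
  rw [isOpen_iff_forall_mem_open]
  intro g hg
  have hcont : Continuous ((g : M → M)^[i]) := g.continuous.iterate i
  have key : ∃ N : Set (Dif n M), IsOpen N ∧ g ∈ N ∧
      ∀ g' ∈ N, ∀ y ∈ (Set.univ : Set M), (g' : M → M)^[i] y ≠ y := by
    refine isCompact_univ.induction_on
      (p := fun s => ∃ N : Set (Dif n M), IsOpen N ∧ g ∈ N ∧
        ∀ g' ∈ N, ∀ y ∈ s, (g' : M → M)^[i] y ≠ y) ?_ ?_ ?_ ?_
    · exact ⟨Set.univ, isOpen_univ, Set.mem_univ _, fun _ _ y hy => hy.elim⟩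
    · rintro s t hst ⟨N, h1, h2, h3⟩
      exact ⟨N, h1, h2, fun g' hg' y hy => h3 g' hg' y (hst hy)⟩
    · rintro s t ⟨N, h1, h2, h3⟩ ⟨N', h1', h2', h3'⟩
      refine ⟨N ∩ N', h1.inter h1', ⟨h2, h2'⟩, fun g' hg' y hy => ?_⟩
      rcases hy with hy | hy
      · exact h3 g' hg'.1 y hy
      · exact h3' g' hg'.2 y hy
    · intro x _
      obtain ⟨V, U, hV, hU, hxV, hxU, hd⟩ := t2_separation (hg x)
      obtain ⟨K, hK, hxK, hKs⟩ := exists_compact_subset (hU.inter (hV.preimage hcont))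
        (show x ∈ U ∩ (g : M → M)^[i] ⁻¹' V from ⟨hxU, hxV⟩)
      refine ⟨K, mem_nhdsWithin_of_mem_nhds (mem_interior_iff_mem_nhds.1 hxK),
        {g' : Dif n M | ∀ y ∈ K, (g' : M → M)^[i] y ∈ V}, isOpen_mapsTo_iterate r i hK hV,
        fun y hy => (hKs hy).2, fun g' hg' y hy he => ?_⟩
      have h1 := hg' y hy
      rw [he] at h1
      exact Set.disjoint_left.1 hd h1 (hKs hy).1
  obtain ⟨N, h1, h2, h3⟩ := key
  exact ⟨N, fun g' hg' x => h3 g' hg' x (Set.mem_univ x), h1, h2⟩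

/-- The diffeomorphisms without periodic points of period at most `N`. -/
def NoPer (n : ℕ) (M : Type u) [TopologicalSpace M] [ChartedSpace (Er n) M] (N : ℕ) : Set (Dif n M) :=
  {g | ∀ k, 1 ≤ k → k ≤ N → ∀ x, (g : M → M)^[k] x ≠ x}

theorem isOpen_NoPer (r : ℕ∞) (N : ℕ) : IsOpen[crTop n M r] (NoPer n M N) := by
  have h : NoPer n M N = ⋂ k ∈ Finset.Icc 1 N, {g : Dif n M | ∀ x, (g : M → M)^[k] x ≠ x} := by
    ext g
    simp only [NoPer, Set.mem_setOf_eq, Set.mem_iInter, Finset.mem_Icc]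
    exact ⟨fun h k hk => h k hk.1 hk.2, fun h k h1 h2 => h k ⟨h1, h2⟩⟩
  rw [h]
  letI T := crTop n M r
  exact isOpen_biInter_finset fun k _ => isOpen_nofix r k

end

end FB
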