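import Pool.Agent.H.MP_fb873c_an.Z4
import Pool.Agent.H.MP_fb873c_an.helper97.E1

/-! # The Todd genus of a complex structure preserved by a diffeomorphism without periodic points of small period -/

namespace FB

open scoped Topology ContDiff Manifold

universe u

section

variable {n : ℕ} {M : Type u} [TopologicalSpace M] [ChartedSpace (Er n) M]
  [IsManifold (𝓡 n) ∞ M] [CompactSpace M] [T2Space M]

/-- If `f` preserves a complex structure with `∑ h^{0,q} ≤ N` and has no periodic point of period at most `N` then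
`∑ (-1)^q h^{0,q} = 0`: the holomorphic Lefschetz formula without fixed points for `f^k`, `1 ≤ k ≤ N`, and
Fuller's argument. -/
theorem todd_zero (f : Dif n M) (m : ℕ) (X : Type u) [TopologicalSpace X] [ChartedSpace (Ec m) X]
    (hXc : IsManifold 𝓘(ℂ, Ec m) ω X) (h : Preserves f m X) (N : ℕ)
    (hN : ∑ q ∈ Finset.range (m + 1), hodge0 m X q ≤ N)
    (hp : ∀ k, 1 ≤ k → k ≤ N → ∀ x, (f : M → M)^[k] x ≠ x) :
    ∑ q ∈ Finset.range (m + 1), (-1 : ℤ) ^ q * (hodge0 m X q : ℤ) = 0 := by
  obtain ⟨Φ, hΦ⟩ := h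
  haveI : IsManifold 𝓘(ℝ, Ec m) ∞ X := isManifold_real hXc
  haveI : CompactSpace X := Φ.toHomeomorph.compactSpace
  haveI : T2Space X := Φ.toHomeomorph.t2Space
  obtain ⟨F, hFdef⟩ : ∃ F : X → X, F = fun z => Φ (f (Φ.symm z)) := ⟨_, rfl⟩
  obtain ⟨G, hGdef⟩ : ∃ G : X → X, G = fun z => Φ (f.symm (Φ.symm z)) := ⟨_, rfl⟩
  have hFΦ : ∀ x, F (Φ x) = Φ (f x) := fun x => by
    rw [hFdef]
    show Φ (f (Φ.symm (Φ x))) = _
    rw [Φ.symm_apply_apply]
  have hF : Holo m F := by
    refine ⟨?_, ?_⟩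
    · rw [hFdef]; exact hΦ
    · rw [hFdef]; exact Φ.contMDiff.comp (f.contMDiff.comp Φ.symm.contMDiff)
  have hGF : ∀ z, G (F z) = z := fun z => by
    rw [hFdef, hGdef]
    show Φ (f.symm (Φ.symm (Φ (f (Φ.symm z))))) = z
    rw [Φ.symm_apply_apply, f.symm_apply_apply, Φ.apply_symm_apply]
  have hFG : ∀ z, F (G z) = z := fun z => by
    rw [hFdef, hGdef]
    show Φ (f (Φ.symm (Φ (f.symm (Φ.symm z))))) = z
    rw [Φ.symm_apply_apply, f.apply_symm_apply, Φ.apply_symm_apply]
  have hGs : ContMDiff 𝓘(ℝ, Ec m) 𝓘(ℝ, Ec m) ∞ G := by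
    rw [hGdef]
    exact Φ.contMDiff.comp (f.symm.contMDiff.comp Φ.symm.contMDiff)
  have hFk : ∀ k, Holo m (F^[k]) := fun k => hF.iterate k
  have hit : ∀ k x, F^[k] (Φ x) = Φ ((f : M → M)^[k] x) := fun k x => Z4_iter f Φ F hFΦ k x
  obtain ⟨T, -, -, -, hgood, hT⟩ := exists_dolbTy m
  have hX : TGood T X := by
    intro x0 x1 p h0 h1
    rw [hgood]
    exact fun v => trd_complex hXc x0 x1 p h0 h1 v
  have hFT : ∀ k p, fd (W := Ec m) (W' := Ec m) (F^[k]) p ∈ T.good := by
    intro k p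
    rw [hgood, fd_eq_cfd hXc (hFk k).1 p]
    intro v
    exact (cfd (m := m) (F^[k]) p).map_smul Complex.I v
  have hFT1 : ∀ p, fd (W := Ec m) (W' := Ec m) F p ∈ T.good := hFT 1
  have hid : ContinuousLinearMap.id ℝ (Ec m) ∈ T.good := by
    rw [hgood]
    intro v
    rfl
  haveI hfd : ∀ q, FiniteDimensional ℂ (HT T hX q) := fun q => finiteDimensional_HT T hX hid q
  have hGT : ∀ p, fd (W := Ec m) (W' := Ec m) G p ∈ T.good := by
    intro p
    rw [hgood]
    intro v
    have e1 : G ∘ F = id := funext hGF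
    have e2 : F ∘ G = id := funext hFG
    have k1 : (fd (W := Ec m) (W' := Ec m) G p).comp (fd (W := Ec m) (W' := Ec m) F (G p)) =
        ContinuousLinearMap.id ℝ (Ec m) := by
      have h1 := fd_comp (W := Ec m) (W' := Ec m) (W'' := Ec m) hF.2 hGs (G p)
      rw [hFG p, e1, fd_id] at h1
      exact h1.symm
    have k2 : (fd (W := Ec m) (W' := Ec m) F (G p)).comp (fd (W := Ec m) (W' := Ec m) G p) =
        ContinuousLinearMap.id ℝ (Ec m) := by
      have h1 := fd_comp (W := Ec m) (W' := Ec m) (W'' := Ec m) hGs hF.2 p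
      rw [e2, fd_id] at h1
      exact h1.symm
    have hA : ∀ w, fd (W := Ec m) (W' := Ec m) F (G p) (Complex.I • w) =
        Complex.I • fd (W := Ec m) (W' := Ec m) F (G p) w := by
      have h1 := hFT1 (G p)
      rw [hgood] at h1
      exact h1
    have k1' : ∀ w, fd (W := Ec m) (W' := Ec m) G p (fd (W := Ec m) (W' := Ec m) F (G p) w) = w :=
      fun w => congrArg (fun L : Ec m →L[ℝ] Ec m => L w) k1
    have k2' : ∀ w, fd (W := Ec m) (W' := Ec m) F (G p) (fd (W := Ec m) (W' := Ec m) G p w) = w :=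
      fun w => congrArg (fun L : Ec m →L[ℝ] Ec m => L w) k2
    calc fd (W := Ec m) (W' := Ec m) G p (Complex.I • v)
        = fd (W := Ec m) (W' := Ec m) G p
            (Complex.I • fd (W := Ec m) (W' := Ec m) F (G p) (fd (W := Ec m) (W' := Ec m) G p v)) := by
          rw [k2' v]
      _ = fd (W := Ec m) (W' := Ec m) G p
            (fd (W := Ec m) (W' := Ec m) F (G p) (Complex.I • fd (W := Ec m) (W' := Ec m) G p v)) := by
          rw [hA]
      _ = Complex.I • fd (W := Ec m) (W' := Ec m) G p v := k1' _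
  have hbij := fun q => FT_bijective T hX hF.2 hFT1 hGs hGT hid hGF hFG q
  have hfr : Module.finrank ℝ (Ec m) = 2 * m := by
    have h1 := Module.finrank_mul_finrank ℝ ℂ (Ec m)
    rw [Complex.finrank_real_complex, finrank_euclideanSpace_fin] at h1
    omega
  have hsum : ∑ q ∈ Finset.range (2 * m + 1), Module.finrank ℂ (HT T hX q) =
      ∑ q ∈ Finset.range (m + 1), hodge0 m X q := by
    have h1 : ∑ q ∈ Finset.range (2 * m + 1), Module.finrank ℂ (HT T hX q) =
        ∑ q ∈ Finset.range (m + 1), Module.finrank ℂ (HT T hX q) := by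
      symm
      apply Finset.sum_subset
      · intro q hq
        rw [Finset.mem_range] at hq ⊢
        omega
      · intro q _ hq
        rw [Finset.mem_range, not_lt] at hq
        exact finrank_dolb_zero T hT hX q (by omega)
    rw [h1]
    exact Finset.sum_congr rfl fun q _ => finrank_dolb T hT hX q
  have hsum2 : ∑ q ∈ Finset.range (2 * m + 1), (-1 : ℤ) ^ q * (Module.finrank ℂ (HT T hX q) : ℤ) =
      ∑ q ∈ Finset.range (m + 1), (-1 : ℤ) ^ q * (hodge0 m X q : ℤ) := by
    have h1 : ∑ q ∈ Finset.range (2 * m + 1), (-1 : ℤ) ^ q * (Module.finrank ℂ (HT T hX q) : ℤ) =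
        ∑ q ∈ Finset.range (m + 1), (-1 : ℤ) ^ q * (Module.finrank ℂ (HT T hX q) : ℤ) := by
      symm
      apply Finset.sum_subset
      · intro q hq
        rw [Finset.mem_range] at hq ⊢
        omega
      · intro q _ hq
        rw [Finset.mem_range, not_lt] at hq
        rw [finrank_dolb_zero T hT hX q (by omega)]
        simp
    rw [h1]
    exact Finset.sum_congr rfl fun q _ => by rw [finrank_dolb T hT hX q]
  have h00 : ∀ k, 1 ≤ k → k ≤ N → ∑ q ∈ Finset.range (2 * m + 1), (-1 : ℂ) ^ q *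
      LinearMap.trace ℂ (HT T hX q) (FT T hX F hF.2 hFT1 q ^ k) = 0 := by
    intro k hk hkN
    have hno : ∀ p, F^[k] p ≠ p := by
      intro p hpp
      obtain ⟨x, rfl⟩ : ∃ x, Φ x = p := ⟨Φ.symm p, Φ.apply_symm_apply p⟩
      rw [hit] at hpp
      exact hp k hk hkN x (Φ.injective hpp)
    have h1 := lefschetz_formula T hX (hFk k).2 (hFT k) ∅ (fun p => by
      constructor
      · intro hp'
        exact absurd hp' (hno p)
      · intro hp'
        exact absurd hp' (Finset.notMem_empty p)) (fun z hz => absurd hz (Finset.notMem_empty z))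
    rw [Finset.sum_empty] at h1
    unfold Lef at h1
    rw [hfr] at h1
    rw [← h1]
    refine Finset.sum_congr rfl fun q _ => ?_
    rw [FT_iterate T hX hF.2 hFT1 (fun k => (hFk k).2) hFT k q]
  have h0 := @euler_zero_fin (2 * m) N (fun q => HT T hX q) (fun q => inferInstance) (fun q => inferInstance) hfd
    (fun q => FT T hX F hF.2 hFT1 q) hbij (hsum.trans_le hN) h00
  rw [← hsum2]
  exact h0

end

end FB
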