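import Pool.Agent.H.MP_fb873c_an.V8
import Pool.Agent.H.MP_fb873c_an.Z7
import Pool.Agent.H.MP_fb873c_an.helper97.E2
import Pool.Agent.H.MP_fb873c_an.helper97.E3

/-! # Open dense sets of diffeomorphisms, without a hypothesis on the Euler characteristic -/

namespace FB

open scoped Topology ContDiff Manifold

universe u

section

variable {n : ℕ} {M : Type u} [TopologicalSpace M] [ChartedSpace (Er n) M]

/-- `f` has no periodic point. -/
def Aper (f : Dif n M) : Prop := ∀ k : ℕ, 1 ≤ k → ∀ x : M, (f : M → M)^[k] x ≠ x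

theorem aper_NoPer {f : Dif n M} (h : Aper f) (N : ℕ) : f ∈ NoPer n M N := fun k hk _ => h k hk

/-- The open and dense sets of the first part. -/
def UZ (n : ℕ) (M : Type u) [TopologicalSpace M] [ChartedSpace (Er n) M] (N : ℕ) : Set (Dif n M) :=
  UH n M N ∪ NoPer n M N

/-- The `C^1`-open sets of the second part. -/
def UP (n : ℕ) (M : Type u) [TopologicalSpace M] [ChartedSpace (Er n) M] (N : ℕ) : Set (Dif n M) :=
  (UR n M ∪ UB n M) ∪ NoPer n M N

/-- The `C^∞`-open set of the second part. -/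
def WP (n : ℕ) (M : Type u) [TopologicalSpace M] [ChartedSpace (Er n) M] : Set (Dif n M) :=
  (UR n M ∪ W3 n M) ∪ ⋃₀ {V | IsOpen[crTop n M ⊤] V ∧ ∀ g ∈ V, Aper g}

end

section

variable {n : ℕ} {M : Type u} [TopologicalSpace M] [ChartedSpace (Er n) M]
  [IsManifold (𝓡 n) ∞ M] [CompactSpace M] [T2Space M]

theorem NoPer_todd {f : Dif n M} {N : ℕ} (hf : f ∈ NoPer n M N) (m : ℕ) (X : Type u)
    [TopologicalSpace X] [ChartedSpace (Ec m) X] [hX : IsManifold 𝓘(ℂ, Ec m) ω X]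
    (h : Preserves f m X) : N < ∑ q ∈ Finset.range (m + 1), hnum (Ec m) X q ∨
      ∑ q ∈ Finset.range (m + 1), (-1 : ℤ) ^ q * (hnum (Ec m) X q : ℤ) = 0 := by
  simp only [hnum_eq]
  rcases lt_or_ge N (∑ q ∈ Finset.range (m + 1), hodge0 m X q) with h1 | h1
  · exact Or.inl h1
  · exact Or.inr (todd_zero f m X hX h N h1 hf)

theorem Aper_todd {f : Dif n M} (hf : Aper f) (m : ℕ) (X : Type u)
    [TopologicalSpace X] [ChartedSpace (Ec m) X] [IsManifold 𝓘(ℂ, Ec m) ω X]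
    (h : Preserves f m X) : ∑ q ∈ Finset.range (m + 1), (-1 : ℤ) ^ q * (hnum (Ec m) X q : ℤ) = 0 := by
  rcases NoPer_todd (aper_NoPer hf (∑ q ∈ Finset.range (m + 1), hnum (Ec m) X q)) m X h with h1 | h1
  · exact absurd h1 (lt_irrefl _)
  · exact h1

theorem isOpen_UZ (N : ℕ) : IsOpen[crTop n M 1] (UZ n M N) := by
  have h1 := isOpen_UH (n := n) (M := M) N
  have h2 := isOpen_NoPer (n := n) (M := M) 1 N
  let _ := crTop n M 1
  exact IsOpen.union h1 h2

theorem UZ_main {f : Dif n M} {N : ℕ} (hf : f ∈ UZ n M N) (m : ℕ) (X : Type u)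
    [TopologicalSpace X] [ChartedSpace (Ec m) X] [hX : IsManifold 𝓘(ℂ, Ec m) ω X]
    (h : Preserves f m X) : N < ∑ q ∈ Finset.range (m + 1), hnum (Ec m) X q ∨
      ((∀ k, 1 ≤ k → k ≤ N → ∀ x, (f : M → M)^[k] x ≠ x) ∧
      ∑ q ∈ Finset.range (m + 1), (-1 : ℤ) ^ q * (hnum (Ec m) X q : ℤ) = 0) := by
  rcases hf with hf | hf
  · left
    simp only [hnum_eq]
    exact UH_hodge N f hf m X h
  · rcases NoPer_todd hf m X h with h1 | h1
    · exact Or.inl h1
    · exact Or.inr ⟨hf, h1⟩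

theorem dense_iInter_UZ (hn : 0 < n) : @Dense _ (crTop n M ⊤) (⋂ N, UZ n M N) := by
  intro f
  by_cases hper : ∃ (x : M) (k : ℕ), 0 < k ∧ (f : M → M)^[k] x = x
  · have h := mem_closure_iInter hn f hper
    let _ := crTop n M ⊤
    exact closure_mono (Set.iInter_mono fun N => Set.subset_union_left) h
  · have h : f ∈ ⋂ N, UZ n M N := by
      rw [Set.mem_iInter]
      intro N
      refine Or.inr fun k hk _ x hx => hper ⟨x, k, hk, hx⟩
    let _ := crTop n M ⊤
    exact subset_closure h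

theorem dense_UZ (hn : 0 < n) (N : ℕ) : @Dense _ (crTop n M ⊤) (UZ n M N) := by
  have h := dense_iInter_UZ (M := M) hn
  let _ := crTop n M ⊤
  exact h.mono (Set.iInter_subset _ N)

theorem iInter_UZ {f : Dif n M} (hf : f ∈ ⋂ N, UZ n M N) (m : ℕ) (X : Type u)
    [TopologicalSpace X] [ChartedSpace (Ec m) X] [IsManifold 𝓘(ℂ, Ec m) ω X]
    (h : Preserves f m X) : Aper f ∧
      ∑ q ∈ Finset.range (m + 1), (-1 : ℤ) ^ q * (hnum (Ec m) X q : ℤ) = 0 := by
  have key : ∀ N, ∑ q ∈ Finset.range (m + 1), hnum (Ec m) X q ≤ N →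
      (∀ k, 1 ≤ k → k ≤ N → ∀ x, (f : M → M)^[k] x ≠ x) ∧
      ∑ q ∈ Finset.range (m + 1), (-1 : ℤ) ^ q * (hnum (Ec m) X q : ℤ) = 0 := by
    intro N hN
    rcases UZ_main (Set.mem_iInter.1 hf N) m X h with h1 | h1
    · omega
    · exact h1
  refine ⟨fun k hk x => ?_, (key _ le_rfl).2⟩
  exact (key (k + ∑ q ∈ Finset.range (m + 1), hnum (Ec m) X q) (by omega)).1 k hk (by omega) x

/-! ## The second part -/

theorem isOpen_UP (N : ℕ) : IsOpen[crTop n M 1] (UP n M N) := by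
  have h1 := isOpen_URB (n := n) (M := M)
  have h2 := isOpen_NoPer (n := n) (M := M) 1 N
  let _ := crTop n M 1
  exact IsOpen.union h1 h2

theorem isOpen_WP : IsOpen[crTop n M ⊤] (WP n M) := by
  have h1 : IsOpen[crTop n M ⊤] (UR n M) := D4_top KT.isOpen_UR
  have h2 := isOpen_W3 (n := n) (M := M)
  let _ := crTop n M ⊤
  exact IsOpen.union (IsOpen.union h1 h2) (isOpen_sUnion fun V hV => hV.1)

theorem not_evenPair (h : (∀ f : Dif n M, ¬ EvenPair f) ∨ bEven n M ≤ 2) (f : Dif n M) : ¬ EvenPair f := by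
  intro hp
  rcases h with h | h
  · exact h f hp
  · have hne : Nonempty M := by
      obtain ⟨ρ, q, r, hρ, hq, hr, hq', hr'⟩ := hp
      obtain ⟨η, -, hη, -⟩ := eigH_iff.1 hq'
      by_contra hemp
      rw [not_nonempty_iff] at hemp
      refine hη ?_
      have h0 : η = 0 := by
        funext x
        exact (hemp.false x).elim
      rw [h0]
      exact Submodule.zero_mem _
    have := three_le_bEven hp
    omega

theorem aper_of_perCard {f : Dif n M} (h : PerCard f 0) : Aper f := by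
  intro k hk x hx
  have h1 : {x | ∃ k, 0 < k ∧ itr f k x = x} = ∅ := by
    rw [← Set.ncard_eq_zero h.1]
    exact_mod_cast h.2
  have h2 : x ∈ {x | ∃ k, 0 < k ∧ itr f k x = x} := ⟨k, hk, hx⟩
  rw [h1] at h2
  exact h2

theorem dense_UP (hn : 0 < n) (hchi : chi (Er n) M n = 0)
    (h : (∀ f : Dif n M, ¬ EvenPair f) ∨ bEven n M ≤ 2) (N : ℕ) : @Dense _ (crTop n M ⊤) (UP n M N) := by
  intro f
  by_contra hf
  have hf1 : f ∉ closure[crTop n M ⊤] (UR n M ∪ UB n M) := by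
    let _ := crTop n M ⊤
    exact fun h1 => hf (closure_mono Set.subset_union_left h1)
  rcases (not_closure_URB hn hf1).2.2.2.2 with h1 | h1
  · exact not_evenPair h f h1
  · rw [hchi] at h1
    apply hf
    have h2 : f ∈ UP n M N := Or.inr (aper_NoPer (aper_of_perCard h1) N)
    let _ := crTop n M ⊤
    exact subset_closure h2

theorem dense_WP (hn : 0 < n) (h : (∀ f : Dif n M, ¬ EvenPair f) ∨ bEven n M ≤ 2) :
    @Dense _ (crTop n M ⊤) (WP n M) := by
  intro f
  by_contra hf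
  have hf1 : f ∉ closure[crTop n M ⊤] (UR n M ∪ W3 n M) := by
    let _ := crTop n M ⊤
    exact fun h1 => hf (closure_mono Set.subset_union_left h1)
  rcases (v8_rob hn hf1).2.2.2.2 with h1 | ⟨-, V, hV, hfV, hP⟩
  · exact not_evenPair h f h1
  · apply hf
    have h2 : f ∈ WP n M := Or.inr ⟨V, ⟨hV, fun g hg => aper_of_perCard (hP g hg)⟩, hfV⟩
    let _ := crTop n M ⊤
    exact subset_closure h2

theorem UP_main (hn : 0 < n) {f : Dif n M} {N : ℕ} (hf : f ∈ UP n M N) (m : ℕ) (X : Type u)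
    [TopologicalSpace X] [ChartedSpace (Ec m) X] [IsManifold 𝓘(ℂ, Ec m) ω X]
    (h : Preserves f m X) : (∀ k, 1 ≤ k → k ≤ N → ∀ x, (f : M → M)^[k] x ≠ x) ∧
      (N < ∑ q ∈ Finset.range (m + 1), hnum (Ec m) X q ∨
      ∑ q ∈ Finset.range (m + 1), (-1 : ℤ) ^ q * (hnum (Ec m) X q : ℤ) = 0) := by
  rcases hf with hf | hf
  · exact absurd h (URB_noCx hn hf m X)
  · exact ⟨hf, NoPer_todd hf m X h⟩

theorem WP_main {f : Dif n M} (hf : f ∈ WP n M) (m : ℕ) (X : Type u)
    [TopologicalSpace X] [ChartedSpace (Ec m) X] [IsManifold 𝓘(ℂ, Ec m) ω X]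
    (h : Preserves f m X) : Aper f ∧
      ∑ q ∈ Finset.range (m + 1), (-1 : ℤ) ^ q * (hnum (Ec m) X q : ℤ) = 0 := by
  rcases hf with (hf | hf) | ⟨V, hV, hf⟩
  · exact absurd h (UR_noCx hf m X)
  · exact absurd h (W3_not_preserves hf m X)
  · exact ⟨hV.2 f hf, Aper_todd (hV.2 f hf) m X h⟩

end

end FB
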